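import Mathlib

/-!
# Sign matrices and travels: the combinatorial core

`Rch a x j`: there are columns `c_0 < ... < c_x = j` such that row `i` of `a` changes between the
columns `c_i` and `c_{i+1}` for all `i < x`.  The main theorem `core` says that for every matrix
`a` of signs there is a choice of column signs `s` such that neither `s` nor any of its flips at
one column has a chain of length `d+1` inside the first `n` columns, provided `2 * n ≤ 5 * d`.
-/

namespace Pool.Agent.H89.LOM

/-- There are columns `c_0 < ... < c_x = j` with `a i c_i ≠ a i c_{i+1}` for all `i < x`. -/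
def Rch (a : ℕ → ℕ → Bool) : ℕ → ℕ → Prop
  | 0, _ => True
  | x + 1, j => ∃ i, i < j ∧ Rch a x i ∧ a x i ≠ a x j

theorem Rch.mono {a : ℕ → ℕ → Bool} : ∀ {x i j : ℕ}, Rch a x i → i ≤ j → Rch a x j := by
  intro x
  induction x with
  | zero => intro i j _ _; trivial
  | succ x ih =>
    intro i j h hij
    obtain ⟨k, hk, hR, hne⟩ := h
    by_cases hc : a x k ≠ a x j
    · exact ⟨k, lt_of_lt_of_le hk hij, hR, hc⟩
    · rcases Nat.eq_or_lt_of_le hij with h1 | h1
      · subst h1; exact ⟨k, hk, hR, hne⟩
      · refine ⟨i, h1, ih hR hk.le, ?_⟩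
        push Not at hc
        rw [← hc]
        exact fun h => hne h.symm

theorem Rch.down {a : ℕ → ℕ → Bool} {x j : ℕ} (h : Rch a (x + 1) j) : Rch a x j := by
  obtain ⟨k, hk, hR, _⟩ := h
  exact hR.mono hk.le

theorem Rch.down_le {a : ℕ → ℕ → Bool} {x y j : ℕ} (h : Rch a y j) (hxy : x ≤ y) :
    Rch a x j := by
  induction y with
  | zero =>
    have : x = 0 := by omega
    subst this; trivial
  | succ y ih =>
    rcases Nat.eq_or_lt_of_le hxy with h1 | h1
    · subst h1; exact h
    · exact ih h.down (by omega)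

theorem Rch.rec_ne {a : ℕ → ℕ → Bool} {x j : ℕ} (h : Rch a (x + 1) (j + 1)) : Rch a x j := by
  obtain ⟨k, hk, hR, _⟩ := h
  exact hR.mono (by omega)

theorem Rch.rec_eq {a : ℕ → ℕ → Bool} {x j : ℕ} (h : Rch a (x + 1) (j + 1))
    (he : a x j = a x (j + 1)) : Rch a (x + 1) j := by
  obtain ⟨k, hk, hR, hne⟩ := h
  have hkj : k ≠ j := by
    intro hh; subst hh; exact hne he
  exact ⟨k, by omega, hR, by rw [he]; exact hne⟩

/-- Only the columns up to `j` matter. -/
theorem Rch.congr {a b : ℕ → ℕ → Bool} : ∀ {x j : ℕ}, (∀ y i, i ≤ j → a y i = b y i) →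
    Rch a x j → Rch b x j := by
  intro x
  induction x with
  | zero => intro j _ _; trivial
  | succ x ih =>
    intro j hab h
    obtain ⟨k, hk, hR, hne⟩ := h
    refine ⟨k, hk, ih (fun y i hi => hab y i (by omega)) hR, ?_⟩
    rw [← hab x k hk.le, ← hab x j le_rfl]
    exact hne

/-- The matrix `a` with its columns reoriented by `s`. -/
def sg (a : ℕ → ℕ → Bool) (s : ℕ → Bool) : ℕ → ℕ → Bool := fun x j => xor (a x j) (s j)

/-- Flip the sign of one column. -/
def flp (s : ℕ → Bool) (m : ℕ) : ℕ → Bool := fun j => if j = m then !(s j) else s j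

/-- Some choice of signs has capacities `P` (no flip), `Q` (flips before `j`), `T` (flip at `j`). -/
def Ach (a : ℕ → ℕ → Bool) (j P Q T : ℕ) : Prop :=
  ∃ s : ℕ → Bool, ¬ Rch (sg a s) (P + 1) j ∧ (∀ m, m < j → ¬ Rch (sg a (flp s m)) (Q + 1) j) ∧
    ¬ Rch (sg a (flp s j)) (T + 1) j

theorem Ach.mono {a : ℕ → ℕ → Bool} {j P Q T P' Q' T' : ℕ} (h : Ach a j P Q T)
    (hP : P ≤ P') (hQ : Q ≤ Q') (hT : T ≤ T') : Ach a j P' Q' T' := by
  obtain ⟨s, h1, h2, h3⟩ := h
  exact ⟨s, fun h => h1 (h.down_le (by omega)), fun m hm h => h2 m hm (h.down_le (by omega)),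
    fun h => h3 (h.down_le (by omega))⟩

theorem ach_zero (a : ℕ → ℕ → Bool) : Ach a 0 0 0 0 := by
  refine ⟨fun _ => false, ?_, ?_, ?_⟩
  · rintro ⟨i, hi, _⟩; omega
  · intro m hm; omega
  · rintro ⟨i, hi, _⟩; omega

/-- One more column. -/
theorem Ach.step {a : ℕ → ℕ → Bool} {j P Q T : ℕ} (h : Ach a j P Q T) (fl : Bool)
    (d : ℕ → Bool) (hd : ∀ x, d x = xor (xor (a x j) (a x (j + 1))) fl) :
    Ach a (j + 1) (P + (d P).toNat) (max (Q + (d Q).toNat) (T + (!(d T)).toNat))
      (P + (!(d P)).toNat) := by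
  obtain ⟨s, h1, h2, h3⟩ := h
  -- the new sign
  set s' : ℕ → Bool := fun i => if i = j + 1 then xor (s j) fl else s i with hs'
  have hs1 : s' (j + 1) = xor (s j) fl := by simp [hs']
  have hs2 : ∀ i, i ≤ j → s' i = s i := by
    intro i hi
    have : i ≠ j + 1 := by omega
    simp [hs', this]
  -- old chains are unchanged
  have old : ∀ x, Rch (sg a s') x j → Rch (sg a s) x j := by
    intro x hx
    refine hx.congr ?_
    intro y i hi
    simp only [sg, hs2 i hi]
  have oldf : ∀ m, m ≤ j → ∀ x, Rch (sg a (flp s' m)) x j → Rch (sg a (flp s m)) x j := by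
    intro m hm x hx
    refine hx.congr ?_
    intro y i hi
    simp only [sg, flp, hs2 i hi]
  have oldg : ∀ x, Rch (sg a (flp s' (j + 1))) x j → Rch (sg a s) x j := by
    intro x hx
    refine hx.congr ?_
    intro y i hi
    have : i ≠ j + 1 := by omega
    simp only [sg, flp, hs2 i hi, this, if_false]
  -- comparison of the columns j and j+1
  have cmp : ∀ x, d x = false → sg a s' x j = sg a s' x (j + 1) := by
    intro x hx
    have h := hd x
    simp only [sg, hs1, hs2 j le_rfl]
    rw [hx] at h
    revert h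
    cases a x j <;> cases a x (j + 1) <;> cases s j <;> cases fl <;> simp
  have cmpf : ∀ m, m < j → ∀ x, d x = false →
      sg a (flp s' m) x j = sg a (flp s' m) x (j + 1) := by
    intro m hm x hx
    have h := cmp x hx
    have e1 : j ≠ m := by omega
    have e2 : j + 1 ≠ m := by omega
    simpa only [sg, flp, e1, e2, if_false] using h
  have cmpj : ∀ x, d x = true →
      sg a (flp s' j) x j = sg a (flp s' j) x (j + 1) := by
    intro x hx
    have h := hd x
    have e2 : j + 1 ≠ j := by omega
    simp only [sg, flp, e2, if_false, if_true, hs1, hs2 j le_rfl]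
    rw [hx] at h
    revert h
    cases a x j <;> cases a x (j + 1) <;> cases s j <;> cases fl <;> simp
  have cmpg : ∀ x, d x = true →
      sg a (flp s' (j + 1)) x j = sg a (flp s' (j + 1)) x (j + 1) := by
    intro x hx
    have h := hd x
    have e2 : j ≠ j + 1 := by omega
    simp only [sg, flp, e2, if_false, if_true, hs1, hs2 j le_rfl]
    rw [hx] at h
    revert h
    cases a x j <;> cases a x (j + 1) <;> cases s j <;> cases fl <;> simp
  refine ⟨s', ?_, ?_, ?_⟩
  · intro hR
    cases hdP : d P with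
    | false =>
      rw [hdP] at hR
      simp only [Bool.toNat_false, add_zero] at hR
      exact h1 (old _ (hR.rec_eq (cmp P hdP)))
    | true =>
      rw [hdP] at hR
      simp only [Bool.toNat_true] at hR
      exact h1 (old _ hR.rec_ne)
  · intro m hm hR
    rcases Nat.lt_or_ge m j with hmj | hmj
    · -- an old flip
      have hR' : Rch (sg a (flp s' m)) (Q + (d Q).toNat + 1) (j + 1) :=
        hR.down_le (by have := le_max_left (Q + (d Q).toNat) (T + (!(d T)).toNat); omega)
      cases hdQ : d Q with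
      | false =>
        rw [hdQ] at hR'
        simp only [Bool.toNat_false, add_zero] at hR'
        exact h2 m hmj (oldf m hmj.le _ (hR'.rec_eq (cmpf m hmj Q hdQ)))
      | true =>
        rw [hdQ] at hR'
        simp only [Bool.toNat_true] at hR'
        exact h2 m hmj (oldf m hmj.le _ hR'.rec_ne)
    · have hmj' : m = j := by omega
      subst hmj'
      have hR' : Rch (sg a (flp s' m)) (T + (!(d T)).toNat + 1) (m + 1) :=
        hR.down_le (by have := le_max_right (Q + (d Q).toNat) (T + (!(d T)).toNat); omega)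
      cases hdT : d T with
      | false =>
        rw [hdT] at hR'
        simp only [Bool.not_false, Bool.toNat_true] at hR'
        exact h3 (oldf m le_rfl _ hR'.rec_ne)
      | true =>
        rw [hdT] at hR'
        simp only [Bool.not_true, Bool.toNat_false, add_zero] at hR'
        exact h3 (oldf m le_rfl _ (hR'.rec_eq (cmpj T hdT)))
  · intro hR
    cases hdP : d P with
    | false =>
      rw [hdP] at hR
      simp only [Bool.not_false, Bool.toNat_true] at hR
      exact h1 (oldg _ hR.rec_ne)
    | true =>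
      rw [hdP] at hR
      simp only [Bool.not_true, Bool.toNat_false, add_zero] at hR
      exact h1 (oldg _ (hR.rec_eq (cmpg P hdP)))

/-- The step with explicit bits. -/
theorem Ach.step' {a : ℕ → ℕ → Bool} {j P Q T : ℕ} (h : Ach a j P Q T) (fl : Bool) :
    Ach a (j + 1) (P + (xor (xor (a P j) (a P (j + 1))) fl).toNat)
      (max (Q + (xor (xor (a Q j) (a Q (j + 1))) fl).toNat)
        (T + (!(xor (xor (a T j) (a T (j + 1))) fl)).toNat))
      (P + (!(xor (xor (a P j) (a P (j + 1))) fl)).toNat) :=
  h.step fl (fun x => xor (xor (a x j) (a x (j + 1))) fl) (fun _ => rfl)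

/-- The invariants after `5 m + 1, ..., 5 m + 5` steps (with `c = 2 m`). -/
def I1 (a : ℕ → ℕ → Bool) (k c : ℕ) : Prop :=
  Ach a k c (c + 1) (c + 1) ∧ Ach a k (c + 1) (c + 1) c

def I2 (a : ℕ → ℕ → Bool) (k c : ℕ) : Prop :=
  Ach a k c (c + 2) (c + 1) ∧ Ach a k (c + 1) (c + 1) (c + 2)

def I3 (a : ℕ → ℕ → Bool) (k c : ℕ) : Prop :=
  Ach a k c (c + 2) (c + 1) ∨ Ach a k (c + 1) (c + 2) c

def I4 (a : ℕ → ℕ → Bool) (k c : ℕ) : Prop :=
  Ach a k (c + 1) (c + 2) (c + 2) ∨
    (Ach a k (c + 1) (c + 3) (c + 2) ∧ Ach a k (c + 2) (c + 2) (c + 1))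

def I5 (a : ℕ → ℕ → Bool) (k c : ℕ) : Prop :=
  Ach a k (c + 1) (c + 3) (c + 2) ∨
    (Ach a k (c + 2) (c + 2) (c + 3) ∧ Ach a k (c + 2) (c + 3) (c + 1))

theorem toNat_le_one (b : Bool) : b.toNat ≤ 1 := by cases b <;> simp

theorem i1_i2 {a : ℕ → ℕ → Bool} {k c : ℕ} (h : I1 a k c) : I2 a (k + 1) c := by
  obtain ⟨hA, hB⟩ := h
  constructor
  · have h := hA.step' (xor (a c k) (a c (k + 1)))
    refine h.mono ?_ ?_ ?_
    · simp
    · have h1 := toNat_le_one (xor (xor (a (c + 1) k) (a (c + 1) (k + 1)))
        (xor (a c k) (a c (k + 1))))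
      have h2 := toNat_le_one (!(xor (xor (a (c + 1) k) (a (c + 1) (k + 1)))
        (xor (a c k) (a c (k + 1)))))
      exact max_le (by omega) (by omega)
    · simp
  · have h := hB.step' (xor (a (c + 1) k) (a (c + 1) (k + 1)))
    refine h.mono ?_ ?_ ?_
    · simp
    · have h2 := toNat_le_one (!(xor (xor (a c k) (a c (k + 1)))
        (xor (a (c + 1) k) (a (c + 1) (k + 1)))))
      refine max_le (by simp) (by omega)
    · simp

theorem i2_i3 {a : ℕ → ℕ → Bool} {k c : ℕ} (h : I2 a k c) : I3 a (k + 1) c := by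
  obtain ⟨hA, _⟩ := h
  by_cases hb : xor (a c k) (a c (k + 1)) = xor (a (c + 2) k) (a (c + 2) (k + 1))
  · left
    have h := hA.step' (xor (a c k) (a c (k + 1)))
    refine h.mono ?_ ?_ ?_
    · simp
    · have h2 := toNat_le_one (!(xor (xor (a (c + 1) k) (a (c + 1) (k + 1)))
        (xor (a c k) (a c (k + 1)))))
      refine max_le (by rw [hb]; simp) (by omega)
    · simp
  · right
    have h := hA.step' (xor (a (c + 2) k) (a (c + 2) (k + 1)))
    have hb' : xor (xor (a c k) (a c (k + 1))) (xor (a (c + 2) k) (a (c + 2) (k + 1))) = true := by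
      revert hb
      cases xor (a c k) (a c (k + 1)) <;> cases xor (a (c + 2) k) (a (c + 2) (k + 1)) <;> simp
    rw [hb'] at h
    refine h.mono ?_ ?_ ?_
    · simp
    · have h2 := toNat_le_one (!(xor (xor (a (c + 1) k) (a (c + 1) (k + 1)))
        (xor (a (c + 2) k) (a (c + 2) (k + 1)))))
      refine max_le (by simp) (by omega)
    · simp

theorem i3_i4 {a : ℕ → ℕ → Bool} {k c : ℕ} (h : I3 a k c) : I4 a (k + 1) c := by
  rcases h with hA | hB
  · left
    have h := hA.step' (xor (a (c + 2) k) (a (c + 2) (k + 1)))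
    have h1 := toNat_le_one (xor (xor (a c k) (a c (k + 1)))
        (xor (a (c + 2) k) (a (c + 2) (k + 1))))
    have h2 := toNat_le_one (!(xor (xor (a c k) (a c (k + 1)))
        (xor (a (c + 2) k) (a (c + 2) (k + 1)))))
    have h3 := toNat_le_one (!(xor (xor (a (c + 1) k) (a (c + 1) (k + 1)))
        (xor (a (c + 2) k) (a (c + 2) (k + 1)))))
    refine h.mono (by omega) ?_ (by omega)
    exact max_le (by simp) (by omega)
  · by_cases hb : xor (a (c + 1) k) (a (c + 1) (k + 1)) = xor (a (c + 2) k) (a (c + 2) (k + 1))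
    · left
      have h := hB.step' (xor (a (c + 2) k) (a (c + 2) (k + 1)))
      rw [hb] at h
      have h2 := toNat_le_one (!(xor (xor (a c k) (a c (k + 1)))
        (xor (a (c + 2) k) (a (c + 2) (k + 1)))))
      refine h.mono (by simp) ?_ (by simp)
      exact max_le (by simp) (by omega)
    · right
      have hb1 : xor (xor (a (c + 1) k) (a (c + 1) (k + 1)))
          (xor (a (c + 2) k) (a (c + 2) (k + 1))) = true := by
        revert hb
        cases xor (a (c + 1) k) (a (c + 1) (k + 1)) <;>
          cases xor (a (c + 2) k) (a (c + 2) (k + 1)) <;> simp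
      constructor
      · have h := hB.step' (xor (a (c + 1) k) (a (c + 1) (k + 1)))
        have h1 := toNat_le_one (xor (xor (a (c + 2) k) (a (c + 2) (k + 1)))
          (xor (a (c + 1) k) (a (c + 1) (k + 1))))
        have h2 := toNat_le_one (!(xor (xor (a c k) (a c (k + 1)))
          (xor (a (c + 1) k) (a (c + 1) (k + 1)))))
        refine h.mono (by simp) ?_ (by simp)
        exact max_le (by omega) (by omega)
      · have h := hB.step' (xor (a (c + 2) k) (a (c + 2) (k + 1)))
        rw [hb1] at h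
        have h2 := toNat_le_one (!(xor (xor (a c k) (a c (k + 1)))
          (xor (a (c + 2) k) (a (c + 2) (k + 1)))))
        refine h.mono (by simp) ?_ (by simp)
        exact max_le (by simp) (by omega)

theorem i4_i5 {a : ℕ → ℕ → Bool} {k c : ℕ} (h : I4 a k c) : I5 a (k + 1) c := by
  rcases h with hA | ⟨hB, hC⟩
  · left
    have h := hA.step' (xor (a (c + 1) k) (a (c + 1) (k + 1)))
    have h1 := toNat_le_one (xor (xor (a (c + 2) k) (a (c + 2) (k + 1)))
        (xor (a (c + 1) k) (a (c + 1) (k + 1))))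
    have h2 := toNat_le_one (!(xor (xor (a (c + 2) k) (a (c + 2) (k + 1)))
        (xor (a (c + 1) k) (a (c + 1) (k + 1)))))
    refine h.mono (by simp) ?_ (by simp)
    exact max_le (by omega) (by omega)
  · by_cases hb : xor (a (c + 1) k) (a (c + 1) (k + 1)) = xor (a (c + 3) k) (a (c + 3) (k + 1))
    · left
      have h := hB.step' (xor (a (c + 3) k) (a (c + 3) (k + 1)))
      rw [hb] at h
      have h2 := toNat_le_one (!(xor (xor (a (c + 2) k) (a (c + 2) (k + 1)))
        (xor (a (c + 3) k) (a (c + 3) (k + 1)))))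
      refine h.mono (by simp) ?_ (by simp)
      exact max_le (by simp) (by omega)
    · right
      have hb1 : xor (xor (a (c + 1) k) (a (c + 1) (k + 1)))
          (xor (a (c + 3) k) (a (c + 3) (k + 1))) = true := by
        revert hb
        cases xor (a (c + 1) k) (a (c + 1) (k + 1)) <;>
          cases xor (a (c + 3) k) (a (c + 3) (k + 1)) <;> simp
      constructor
      · have h := hC.step' (xor (a (c + 2) k) (a (c + 2) (k + 1)))
        have h2 := toNat_le_one (!(xor (xor (a (c + 1) k) (a (c + 1) (k + 1)))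
          (xor (a (c + 2) k) (a (c + 2) (k + 1)))))
        refine h.mono (by simp) ?_ (by simp)
        exact max_le (by simp) (by omega)
      · have h := hB.step' (xor (a (c + 3) k) (a (c + 3) (k + 1)))
        rw [hb1] at h
        have h2 := toNat_le_one (!(xor (xor (a (c + 2) k) (a (c + 2) (k + 1)))
          (xor (a (c + 3) k) (a (c + 3) (k + 1)))))
        refine h.mono (by simp) ?_ (by simp)
        exact max_le (by simp) (by omega)

theorem i5_i1 {a : ℕ → ℕ → Bool} {k c : ℕ} (h : I5 a k c) : I1 a (k + 1) (c + 2) := by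
  rcases h with hA | ⟨hB, hC⟩
  · have h := hA.step' (xor (a (c + 3) k) (a (c + 3) (k + 1)))
    have h1 := toNat_le_one (xor (xor (a (c + 1) k) (a (c + 1) (k + 1)))
        (xor (a (c + 3) k) (a (c + 3) (k + 1))))
    have h2 := toNat_le_one (!(xor (xor (a (c + 1) k) (a (c + 1) (k + 1)))
        (xor (a (c + 3) k) (a (c + 3) (k + 1)))))
    have h3 := toNat_le_one (!(xor (xor (a (c + 2) k) (a (c + 2) (k + 1)))
        (xor (a (c + 3) k) (a (c + 3) (k + 1)))))
    constructor
    · refine h.mono (by omega) ?_ (by omega)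
      exact max_le (by simp) (by omega)
    · refine h.mono (by omega) ?_ (by omega)
      exact max_le (by simp) (by omega)
  · have h := hC.step' (xor (a (c + 3) k) (a (c + 3) (k + 1)))
    have h' := hB.step' (!(xor (a (c + 3) k) (a (c + 3) (k + 1))))
    have h3 := toNat_le_one (!(xor (xor (a (c + 1) k) (a (c + 1) (k + 1)))
        (xor (a (c + 3) k) (a (c + 3) (k + 1)))))
    have h4 := toNat_le_one (xor (xor (a (c + 2) k) (a (c + 2) (k + 1)))
        (!(xor (a (c + 3) k) (a (c + 3) (k + 1)))))
    have key : xor (xor (a (c + 3) k) (a (c + 3) (k + 1)))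
        (!(xor (a (c + 3) k) (a (c + 3) (k + 1)))) = true := by
      cases xor (a (c + 3) k) (a (c + 3) (k + 1)) <;> simp
    rw [key] at h'
    by_cases hb : xor (a (c + 2) k) (a (c + 2) (k + 1)) = xor (a (c + 3) k) (a (c + 3) (k + 1))
    · have hb1 : xor (xor (a (c + 2) k) (a (c + 2) (k + 1)))
          (!(xor (a (c + 3) k) (a (c + 3) (k + 1)))) = true := by
        rw [hb]; exact key
      rw [hb] at h
      rw [hb1] at h'
      constructor
      · refine h.mono (by simp) ?_ (by simp)
        exact max_le (by simp) (by omega)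
      · refine h'.mono (by simp) ?_ (by simp)
        exact max_le (by simp) (by simp)
    · have hb1 : xor (xor (a (c + 2) k) (a (c + 2) (k + 1)))
          (!(xor (a (c + 3) k) (a (c + 3) (k + 1)))) = false := by
        revert hb
        cases xor (a (c + 2) k) (a (c + 2) (k + 1)) <;>
          cases xor (a (c + 3) k) (a (c + 3) (k + 1)) <;> simp
      have hb2 : xor (xor (a (c + 2) k) (a (c + 2) (k + 1)))
          (xor (a (c + 3) k) (a (c + 3) (k + 1))) = true := by
        revert hb
        cases xor (a (c + 2) k) (a (c + 2) (k + 1)) <;>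
          cases xor (a (c + 3) k) (a (c + 3) (k + 1)) <;> simp
      rw [hb2] at h
      rw [hb1] at h'
      constructor
      · refine h'.mono (by simp) ?_ (by simp)
        exact max_le (by simp) (by simp)
      · refine h.mono (by simp) ?_ (by simp)
        exact max_le (by simp) (by omega)

theorem i1_all (a : ℕ → ℕ → Bool) (m : ℕ) : I1 a (5 * m + 1) (2 * m) := by
  induction m with
  | zero =>
    constructor
    · have h := (ach_zero a).step' (xor (a 0 0) (a 0 1))
      have h1 := toNat_le_one (xor (xor (a 0 0) (a 0 (0 + 1))) (xor (a 0 0) (a 0 1)))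
      have h2 := toNat_le_one (!(xor (xor (a 0 0) (a 0 (0 + 1))) (xor (a 0 0) (a 0 1))))
      refine h.mono (by simp) (max_le (by omega) (by omega)) (by simp)
    · have h := (ach_zero a).step' (!(xor (a 0 0) (a 0 1)))
      have h1 := toNat_le_one (xor (xor (a 0 0) (a 0 (0 + 1))) (!(xor (a 0 0) (a 0 1))))
      have h2 := toNat_le_one (!(xor (xor (a 0 0) (a 0 (0 + 1))) (!(xor (a 0 0) (a 0 1)))))
      refine h.mono (by omega) (max_le (by omega) (by omega)) ?_
      cases a 0 0 <;> cases a 0 1 <;> simp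
  | succ m ih =>
    have h := i5_i1 (i4_i5 (i3_i4 (i2_i3 (i1_i2 ih))))
    have e1 : 5 * m + 1 + 1 + 1 + 1 + 1 + 1 = 5 * (m + 1) + 1 := by ring
    have e2 : 2 * m + 2 = 2 * (m + 1) := by ring
    rw [e1, e2] at h
    exact h

/-- **The combinatorial core.** -/
theorem core (a : ℕ → ℕ → Bool) (n d : ℕ) (hn : 1 ≤ n) (h : 2 * n ≤ 5 * d) :
    Ach a (n - 1) d d d := by
  rcases Nat.eq_or_lt_of_le hn with h1 | h1
  · have : n - 1 = 0 := by omega
    rw [this]
    exact (ach_zero a).mono (Nat.zero_le _) (Nat.zero_le _) (Nat.zero_le _)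
  · obtain ⟨m, i, hi, hm⟩ : ∃ m i, i < 5 ∧ n - 1 = 5 * m + 1 + i :=
      ⟨(n - 2) / 5, (n - 2) % 5, Nat.mod_lt _ (by norm_num), by omega⟩
    have H1 := i1_all a m
    rw [hm]
    interval_cases i
    · exact H1.1.mono (by omega) (by omega) (by omega)
    · exact (i1_i2 H1).2.mono (by omega) (by omega) (by omega)
    · rcases i2_i3 (i1_i2 H1) with h3 | h3
      · exact h3.mono (by omega) (by omega) (by omega)
      · exact h3.mono (by omega) (by omega) (by omega)
    · rcases i3_i4 (i2_i3 (i1_i2 H1)) with h4 | ⟨_, h4⟩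
      · exact h4.mono (by omega) (by omega) (by omega)
      · exact h4.mono (by omega) (by omega) (by omega)
    · rcases i4_i5 (i3_i4 (i2_i3 (i1_i2 H1))) with h5 | ⟨h5, _⟩
      · exact h5.mono (by omega) (by omega) (by omega)
      · exact h5.mono (by omega) (by omega) (by omega)

/-- Explicit form: no chain of length `d + 1` in the first `n` columns, for `s` and for each of its
flips. -/
theorem core' (a : ℕ → ℕ → Bool) (n d : ℕ) (hn : 1 ≤ n) (h : 2 * n ≤ 5 * d) :
    ∃ s : ℕ → Bool, (∀ j, j < n → ¬ Rch (sg a s) (d + 1) j) ∧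
      (∀ m, m < n → ∀ j, j < n → ¬ Rch (sg a (flp s m)) (d + 1) j) := by
  obtain ⟨s, h1, h2, h3⟩ := core a n d hn h
  refine ⟨s, ?_, ?_⟩
  · intro j hj hR
    exact h1 (hR.mono (by omega))
  · intro m hm j hj hR
    rcases Nat.lt_or_ge m (n - 1) with h4 | h4
    · exact h2 m h4 (hR.mono (by omega))
    · have : m = n - 1 := by omega
      subst this
      exact h3 (hR.mono (by omega))

end Pool.Agent.H89.LOM
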