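import Mathlib
import Pool.Agent.H89.LOM.Core

/-!
# Positive relations between vectors with a staircase chirotope
-/

namespace Pool.Agent.H89.LOM

open Finset

/-- The sign of every increasing `r × r` minor is the product of the signs along the staircase. -/
def Stair {r n : ℕ} (y : Fin n → Fin r → ℝ) (a : Fin r → Fin n → ℝ) : Prop :=
  (∀ i j, a i j = 1 ∨ a i j = -1) ∧
    ∀ b : Fin r → Fin n, StrictMono b → 0 < (∏ i, a i (b i)) * (Matrix.of fun i => y (b i)).det

theorem succAb {r : ℕ} (i : Fin r) : i.succ.succAbove i = i.castSucc :=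
  Fin.succAbove_of_castSucc_lt _ _ (by rw [Fin.lt_def]; simp)

theorem Stair.det_ne {r n : ℕ} {y : Fin n → Fin r → ℝ} {a : Fin r → Fin n → ℝ}
    (h : Stair y a) {b : Fin r → Fin n} (hb : StrictMono b) :
    (Matrix.of fun i => y (b i)).det ≠ 0 := by
  intro h0
  have := h.2 b hb
  rw [h0, mul_zero] at this
  exact lt_irrefl _ this

/-- A positive relation between `r + 1` of the vectors gives a chain. -/
theorem Stair.chain {r n : ℕ} {y : Fin n → Fin r → ℝ} {a : Fin r → Fin n → ℝ}
    (h : Stair y a) {c : Fin (r + 1) → Fin n} (hc : StrictMono c) {w : Fin (r + 1) → ℝ}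
    (hw : ∀ k, 0 < w k) (h0 : ∑ k, w k • y (c k) = 0) (i : Fin r) :
    a i (c i.castSucc) ≠ a i (c i.succ) := by
  classical
  intro heq
  set M : Matrix (Fin r) (Fin r) ℝ := Matrix.of fun l => y (c (i.succ.succAbove l)) with hM
  set N : Matrix (Fin r) (Fin r) ℝ := Matrix.of fun l => y (c (i.castSucc.succAbove l)) with hN
  -- the linear functional
  let φ : (Fin r → ℝ) →ₗ[ℝ] ℝ :=
    (Matrix.detRowAlternating (n := Fin r) (R := ℝ)).toMultilinearMap.toLinearMap M i
  have hφ : ∀ v, φ v = (M.updateRow i v).det := by
    intro v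
    rfl
  have h1 : φ (y (c i.castSucc)) = M.det := by
    rw [hφ]
    congr 1
    ext l m
    by_cases hl : l = i
    · subst hl
      simp [hM]
    · simp [Matrix.updateRow_ne hl]
  have h2 : φ (y (c i.succ)) = N.det := by
    rw [hφ]
    congr 1
    ext l m
    by_cases hl : l = i
    · subst hl
      simp [hN]
    · rw [Matrix.updateRow_ne hl]
      have : i.succ.succAbove l = i.castSucc.succAbove l := by
        rcases lt_or_gt_of_ne hl with h | h
        · rw [Fin.succAbove_of_castSucc_lt _ _ (by
              rw [Fin.lt_def]; simp only [Fin.val_castSucc, Fin.val_succ]; rw [Fin.lt_def] at h; omega),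
            Fin.succAbove_of_castSucc_lt _ _ (by
              rw [Fin.lt_def]; simp only [Fin.val_castSucc]; rw [Fin.lt_def] at h; omega)]
        · rw [Fin.succAbove_of_le_castSucc _ _ (by
              rw [Fin.le_def]; simp only [Fin.val_castSucc, Fin.val_succ]; rw [Fin.lt_def] at h; omega),
            Fin.succAbove_of_le_castSucc _ _ (by
              rw [Fin.le_def]; simp only [Fin.val_castSucc]; rw [Fin.lt_def] at h; omega)]
      simp [hM, hN, this]
  have h3 : ∀ l, l ≠ i → φ (y (c (i.succ.succAbove l))) = 0 := by
    intro l hl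
    rw [hφ]
    refine Matrix.det_zero_of_row_eq (i := l) (j := i) hl ?_
    rw [Matrix.updateRow_ne hl, Matrix.updateRow_self]
    rfl
  have h4 : w i.succ * N.det + w i.castSucc * M.det = 0 := by
    have e := congrArg φ h0
    rw [map_sum, map_zero, Fin.sum_univ_succAbove _ i.succ, Finset.sum_eq_single i] at e
    · rw [map_smul, map_smul, h2, succAb] at e
      rw [h1] at e
      simpa [smul_eq_mul] using e
    · intro l _ hl
      rw [map_smul, h3 l hl, smul_zero]
    · intro hi
      exact absurd (Finset.mem_univ _) hi
  -- the signs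
  have sM := h.2 (fun l => c (i.succ.succAbove l)) (hc.comp (Fin.strictMono_succAbove _))
  have sN := h.2 (fun l => c (i.castSucc.succAbove l)) (hc.comp (Fin.strictMono_succAbove _))
  have hprod : ∏ l, a l (c (i.succ.succAbove l)) = ∏ l, a l (c (i.castSucc.succAbove l)) := by
    refine Finset.prod_congr rfl fun l _ => ?_
    rcases lt_trichotomy l i with h | h | h
    · rw [Fin.succAbove_of_castSucc_lt _ _ (by
          rw [Fin.lt_def]; simp only [Fin.val_castSucc, Fin.val_succ]; rw [Fin.lt_def] at h; omega),
        Fin.succAbove_of_castSucc_lt _ _ (by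
          rw [Fin.lt_def]; simp only [Fin.val_castSucc]; rw [Fin.lt_def] at h; omega)]
    · subst h
      rw [succAb, Fin.succAbove_castSucc_self]
      exact heq
    · rw [Fin.succAbove_of_le_castSucc _ _ (by
          rw [Fin.le_def]; simp only [Fin.val_castSucc, Fin.val_succ]; rw [Fin.lt_def] at h; omega),
        Fin.succAbove_of_le_castSucc _ _ (by
          rw [Fin.le_def]; simp only [Fin.val_castSucc]; rw [Fin.lt_def] at h; omega)]
  rw [hprod] at sM
  set p := ∏ l, a l (c (i.castSucc.succAbove l)) with hp
  have e : w i.succ * (p * N.det) + w i.castSucc * (p * M.det) = 0 := by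
    linear_combination p * h4
  have t1 := mul_pos (hw i.succ) sN
  have t2 := mul_pos (hw i.castSucc) sM
  have : 0 < w i.succ * (p * N.det) + w i.castSucc * (p * M.det) := add_pos t1 t2
  linarith

/-- If there is no chain then `0` is not in the convex hull. -/
theorem Stair.notMem {r n : ℕ} {y : Fin n → Fin r → ℝ} {a : Fin r → Fin n → ℝ}
    (h : Stair y a) (hrn : r ≤ n)
    (hch : ∀ c : Fin (r + 1) → Fin n, StrictMono c → ∃ i : Fin r, a i (c i.castSucc) = a i (c i.succ)) :
    (0 : Fin r → ℝ) ∉ convexHull ℝ (Set.range y) := by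
  classical
  intro h0
  obtain ⟨ι, hι, z, w, hz, haff, hw, hw1, hsum⟩ := eq_pos_convex_span_of_mem_convexHull h0
  choose g hg using fun i => hz (Set.mem_range_self i)
  have ginj : Function.Injective g := by
    intro i j hij
    apply haff.injective
    rw [← hg i, ← hg j, hij]
  -- the index set
  set J : Finset (Fin n) := Finset.univ.image g with hJ
  have hJc : J.card = Fintype.card ι := by
    rw [hJ, Finset.card_image_of_injective _ ginj, Finset.card_univ]
  have hne : Nonempty ι := by
    by_contra hcon
    rw [not_nonempty_iff] at hcon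
    rw [Finset.univ_eq_empty, Finset.sum_empty] at hw1
    exact zero_ne_one hw1
  have hcard : Fintype.card ι ≤ r + 1 := by
    have := haff.card_le_finrank_succ
    refine this.trans ?_
    have h1 : Module.finrank ℝ (vectorSpan ℝ (Set.range z)) ≤ Module.finrank ℝ (Fin r → ℝ) :=
      Submodule.finrank_le _
    rw [Module.finrank_fin_fun] at h1
    omega
  -- the weights on the indices
  let W : Fin n → ℝ := fun j => ∑ i ∈ Finset.univ.filter (fun i => g i = j), w i
  have hW : ∀ i, W (g i) = w i := by
    intro i
    simp only [W]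
    rw [Finset.sum_eq_single i]
    · intro b hb hbi
      rw [Finset.mem_filter] at hb
      exact absurd (ginj hb.2) hbi
    · intro hi
      exact absurd (by simp) hi
  have hWpos : ∀ j ∈ J, 0 < W j := by
    intro j hj
    rw [hJ, Finset.mem_image] at hj
    obtain ⟨i, _, rfl⟩ := hj
    rw [hW]
    exact hw i
  have hWsum : ∑ j ∈ J, W j • y j = 0 := by
    rw [hJ, Finset.sum_image (fun i _ j _ hij => ginj hij), ← hsum]
    refine Finset.sum_congr rfl fun i _ => ?_
    rw [hW, hg]
  rcases Nat.lt_or_ge J.card (r + 1) with hlt | hge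
  · -- at most r vectors: they are linearly independent
    obtain ⟨K, hJK, hKc⟩ : ∃ K : Finset (Fin n), J ⊆ K ∧ K.card = r := by
      obtain ⟨K, h1, _, h2⟩ := Finset.exists_subsuperset_card_eq (Finset.subset_univ J)
        (show J.card ≤ r by omega) (show r ≤ (Finset.univ : Finset (Fin n)).card by simpa using hrn)
      exact ⟨K, h1, h2⟩
    let b := K.orderEmbOfFin hKc
    have hb : StrictMono b := b.strictMono
    have hdet := h.det_ne hb
    have hli : LinearIndependent ℝ (fun i => y (b i)) := by
      have := Matrix.linearIndependent_rows_iff_isUnit (A := Matrix.of fun i => y (b i))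
      have h2 : IsUnit (Matrix.of fun i => y (b i)) := by
        rw [Matrix.isUnit_iff_isUnit_det]
        exact isUnit_iff_ne_zero.mpr hdet
      exact this.mpr h2
    rw [Fintype.linearIndependent_iff] at hli
    have hs : ∑ i, (if b i ∈ J then W (b i) else 0) • y (b i) = 0 := by
      rw [← hWsum]
      have e1 : ∑ j ∈ K, (if j ∈ J then W j else 0) • y j = ∑ j ∈ J, W j • y j := by
        rw [← Finset.sum_subset hJK]
        · refine Finset.sum_congr rfl fun j hj => ?_
          rw [if_pos hj]
        · intro j _ hj
          rw [if_neg hj, zero_smul]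
      rw [← e1]
      have e2 : K = Finset.univ.image b := by
        ext j
        constructor
        · intro hj
          have : j ∈ Set.range b := by
            rw [Finset.range_orderEmbOfFin]
            exact hj
          obtain ⟨i, hi⟩ := this
          exact Finset.mem_image.mpr ⟨i, Finset.mem_univ _, hi⟩
        · intro hj
          obtain ⟨i, _, rfl⟩ := Finset.mem_image.mp hj
          exact K.orderEmbOfFin_mem hKc i
      conv_rhs => rw [e2]
      rw [Finset.sum_image (fun i _ j _ hij => b.injective hij)]
    have hz0 := hli _ hs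
    obtain ⟨i0⟩ := hne
    have hmem : g i0 ∈ J := by rw [hJ]; exact Finset.mem_image_of_mem _ (Finset.mem_univ _)
    have hmemK : g i0 ∈ K := hJK hmem
    have : g i0 ∈ Set.range b := by
      rw [Finset.range_orderEmbOfFin]
      exact hmemK
    obtain ⟨k, hk⟩ := this
    have h5 := hz0 k
    simp only [hk, if_pos hmem] at h5
    exact absurd h5 (hWpos _ hmem).ne'
  · -- exactly r+1 vectors
    have hJr : J.card = r + 1 := by omega
    let c := J.orderEmbOfFin hJr
    have hc : StrictMono c := c.strictMono
    have hs : ∑ k, W (c k) • y (c k) = 0 := by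
      rw [← hWsum]
      have e2 : J = Finset.univ.image c := by
        ext j
        constructor
        · intro hj
          have : j ∈ Set.range c := by
            rw [Finset.range_orderEmbOfFin]
            exact hj
          obtain ⟨i, hi⟩ := this
          exact Finset.mem_image.mpr ⟨i, Finset.mem_univ _, hi⟩
        · intro hj
          obtain ⟨i, _, rfl⟩ := Finset.mem_image.mp hj
          exact J.orderEmbOfFin_mem hJr i
      conv_rhs => rw [e2]
      rw [Finset.sum_image (fun i _ j _ hij => c.injective hij)]
    obtain ⟨i, hi⟩ := hch c hc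
    exact h.chain hc (fun k => hWpos _ (J.orderEmbOfFin_mem hJr k)) hs i hi

/-- A separating functional. -/
theorem Stair.functional {r n : ℕ} {y : Fin n → Fin r → ℝ} {a : Fin r → Fin n → ℝ}
    (h : Stair y a) (hrn : r ≤ n)
    (hch : ∀ c : Fin (r + 1) → Fin n, StrictMono c → ∃ i : Fin r, a i (c i.castSucc) = a i (c i.succ)) :
    ∃ l : Fin r → ℝ, ∀ j, 0 < ∑ i, l i * y j i := by
  classical
  have h0 := h.notMem hrn hch
  obtain ⟨f, u, hf0, hfu⟩ := geometric_hahn_banach_point_closed (convex_convexHull ℝ (Set.range y))
    (((Set.finite_range y).isClosed_convexHull ℝ)) h0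
  rw [map_zero] at hf0
  refine ⟨fun i => f (Pi.single i 1), fun j => ?_⟩
  have h1 := hfu (y j) (subset_convexHull ℝ _ (Set.mem_range_self j))
  have h2 : f (y j) = ∑ i, f (Pi.single i 1) * y j i := by
    conv_lhs => rw [← Finset.univ_sum_single (y j)]
    rw [map_sum]
    refine Finset.sum_congr rfl fun i _ => ?_
    have : (Pi.single i (y j i) : Fin r → ℝ) = y j i • Pi.single i 1 := by
      rw [← Pi.single_smul, smul_eq_mul, mul_one]
    rw [this, map_smul, smul_eq_mul, mul_comm]
  rw [← h2]
  linarith

end Pool.Agent.H89.LOM
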