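import Mathlib
import Pool.Agent.H89.LOM.Hull

/-!
# From sign choices to linear functionals
-/

namespace Pool.Agent.H89.LOM

open Finset

/-- The sign of a Boolean. -/
def sgn (b : Bool) : ℝ := if b then -1 else 1

theorem sgn_mul_self (b : Bool) : sgn b * sgn b = 1 := by
  cases b <;> norm_num [sgn]

theorem sgn_not (b : Bool) : sgn (!b) = - sgn b := by
  cases b <;> norm_num [sgn]

/-- The Boolean matrix of a real sign matrix. -/
noncomputable def bm {r n : ℕ} (a : Fin r → Fin n → ℝ) : ℕ → ℕ → Bool := by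
  classical
  exact fun i j => if h : i < r ∧ j < n then decide (a ⟨i, h.1⟩ ⟨j, h.2⟩ = -1) else false

theorem sgn_bm {r n : ℕ} {a : Fin r → Fin n → ℝ} (ha : ∀ i j, a i j = 1 ∨ a i j = -1)
    (i : Fin r) (j : Fin n) : sgn (bm a i j) = a i j := by
  have h : (i : ℕ) < r ∧ (j : ℕ) < n := ⟨i.2, j.2⟩
  simp only [bm, dif_pos h, Fin.eta]
  rcases ha i j with h | h <;> simp only [h, sgn] <;> norm_num

theorem sgn_xor (b c : Bool) : sgn (xor b c) = sgn b * sgn c := by
  cases b <;> cases c <;> norm_num [sgn]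

theorem sgn_inj {b c : Bool} (h : sgn b = sgn c) : b = c := by
  cases b <;> cases c <;> revert h <;> norm_num [sgn]

/-- Reorientation of a staircase chirotope. -/
theorem Stair.reorient {r n : ℕ} {y : Fin n → Fin r → ℝ} {a : Fin r → Fin n → ℝ}
    (h : Stair y a) (s : ℕ → Bool) :
    Stair (fun j => sgn (s j) • y j) (fun i j => sgn (sg (bm a) s i j)) := by
  refine ⟨fun i j => ?_, fun b hb => ?_⟩
  · show sgn (sg (bm a) s i j) = 1 ∨ sgn (sg (bm a) s i j) = -1
    generalize sg (bm a) s i j = t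
    cases t
    · left; norm_num [sgn]
    · right; norm_num [sgn]
  · have e1 : (∏ i : Fin r, sgn (sg (bm a) s i (b i))) = (∏ i, a i (b i)) * ∏ i, sgn (s (b i)) := by
      rw [← Finset.prod_mul_distrib]
      refine Finset.prod_congr rfl fun i _ => ?_
      rw [sg, sgn_xor, sgn_bm h.1]
    have e2 : (Matrix.of fun i => sgn (s (b i)) • y (b i)).det =
        (∏ i, sgn (s (b i))) * (Matrix.of fun i => y (b i)).det := by
      have := Matrix.det_mul_column (fun i => sgn (s (b i))) (Matrix.of fun i => y (b i))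
      rw [← this]
      congr 1
    have e3 : (∏ i, sgn (s (b i))) * (∏ i, sgn (s (b i))) = 1 := by
      rw [← Finset.prod_mul_distrib]
      exact Finset.prod_eq_one fun i _ => sgn_mul_self _
    have := h.2 b hb
    rw [e1, e2]
    have e4 : (∏ i, a i (b i)) * (∏ i, sgn (s (b i))) *
        ((∏ i, sgn (s (b i))) * (Matrix.of fun i => y (b i)).det) =
        ((∏ i, sgn (s (b i))) * (∏ i, sgn (s (b i)))) *
          ((∏ i, a i (b i)) * (Matrix.of fun i => y (b i)).det) := by ring
    rw [e4, e3, one_mul]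
    exact this

/-- A chain of columns for the reoriented matrix. -/
theorem rch_of_chain {r n : ℕ} {A : ℕ → ℕ → Bool} {c : Fin (r + 1) → Fin n} (hc : StrictMono c)
    (h : ∀ i : Fin r, A i (c i.castSucc) ≠ A i (c i.succ)) :
    Rch A r (c (Fin.last r)) := by
  have key : ∀ k (hk : k < r + 1), Rch A k (c ⟨k, hk⟩) := by
    intro k
    induction k with
    | zero => intro _; trivial
    | succ k ih =>
      intro hk
      refine ⟨c ⟨k, by omega⟩, ?_, ih (by omega), ?_⟩
      · have : c ⟨k, by omega⟩ < c ⟨k + 1, hk⟩ := hc (by rw [Fin.lt_def]; simp)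
        exact this
      · exact h ⟨k, by omega⟩
  exact key r (by omega)

/-- No chain gives a functional with the prescribed signs. -/
theorem Stair.exists_functional {r n : ℕ} {y : Fin n → Fin r → ℝ} {a : Fin r → Fin n → ℝ}
    (h : Stair y a) (hrn : r ≤ n) (s : ℕ → Bool) (hs : ∀ j, j < n → ¬ Rch (sg (bm a) s) r j) :
    ∃ l : Fin r → ℝ, ∀ j : Fin n, 0 < sgn (s j) * ∑ i, l i * y j i := by
  obtain ⟨l, hl⟩ := (h.reorient s).functional hrn (by
    intro c hc
    by_contra hcon
    push Not at hcon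
    refine hs _ (c (Fin.last r)).2 (rch_of_chain hc fun i he => hcon i ?_)
    rw [he])
  refine ⟨l, fun j => ?_⟩
  have := hl j
  rw [Finset.mul_sum]
  refine this.trans_eq (Finset.sum_congr rfl fun i _ => ?_)
  simp only [Pi.smul_apply, smul_eq_mul]
  ring

/-- Perturbation: the first coordinate of the functional may be taken non-zero. -/
theorem exists_ne_zero {r n : ℕ} {y : Fin n → Fin (r + 1) → ℝ} (s : ℕ → Bool)
    (h : ∃ l : Fin (r + 1) → ℝ, ∀ j : Fin n, 0 < sgn (s j) * ∑ i, l i * y j i) :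
    ∃ l : Fin (r + 1) → ℝ, l 0 ≠ 0 ∧ ∀ j : Fin n, 0 < sgn (s j) * ∑ i, l i * y j i := by
  obtain ⟨l, hl⟩ := h
  have h1 : ∀ j : Fin n, ∀ᶠ t : ℝ in nhds 0,
      0 < sgn (s j) * ∑ i, (l i + if i = 0 then t else 0) * y j i := by
    intro j
    have hc : Continuous fun t : ℝ => sgn (s j) * ∑ i, (l i + if i = 0 then t else 0) * y j i := by
      refine continuous_const.mul (continuous_finsetSum _ fun i _ => ?_)
      refine Continuous.mul (continuous_const.add ?_) continuous_const
      by_cases hi : i = 0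
      · simp only [hi, if_true]; exact continuous_id
      · simp only [hi, if_false]; exact continuous_const
    refine hc.continuousAt.eventually (lt_mem_nhds ?_)
    simpa using hl j
  have h2 : ∀ᶠ t : ℝ in nhds 0, ∀ j : Fin n,
      0 < sgn (s j) * ∑ i, (l i + if i = 0 then t else 0) * y j i :=
    Filter.eventually_all.mpr h1
  have h3 : ∀ᶠ t : ℝ in nhdsWithin 0 {0}ᶜ, ∀ j : Fin n,
      0 < sgn (s j) * ∑ i, (l i + if i = 0 then t else 0) * y j i :=
    h2.filter_mono nhdsWithin_le_nhds
  by_cases h0 : l 0 = 0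
  · obtain ⟨t, ht, ht0⟩ := (h3.and self_mem_nhdsWithin).exists
    refine ⟨fun i => l i + if i = 0 then t else 0, ?_, ht⟩
    simpa [h0] using ht0
  · exact ⟨l, h0, hl⟩

end Pool.Agent.H89.LOM
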